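import Pool.Agent.MP_3ce0a0_al.H79.XS

/-
Joint generalised eigenspaces of the multiplications by a word.
-/

namespace Pool.Agent.MP_3ce0a0_al.H30.XC

open Equiv FreeGroup Module Finset Pool.Agent.MP_3ce0a0_al.H62.Inst Pool.Agent.MP_3ce0a0_al.H79.X

section grp
variable {ι : Type} {S : Set ι} {w : FreeGroup ι}

lemma fixH {φ : FreeGroup ι →* FreeGroup ι} (h : ∀ c ∈ S, φ (of c) = of c) (hw : w ∈ FS S) :
    φ w = w := by
  induction hw using Subgroup.closure_induction with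
  | mem x hx => obtain ⟨c, hc, rfl⟩ := hx; exact h c hc
  | one => simp
  | mul x y _ _ hx hy => rw [_root_.map_mul, hx, hy]
  | inv x _ hx => rw [_root_.map_inv, hx]

lemma fixA {α : A ι} (h : ∀ c ∈ S, α (of c) = of c) (hw : w ∈ FS S) : α w = w :=
  fixH (φ := α.toMonoidHom) h hw

variable [DecidableEq ι]

lemma kill_w {e : ι} (hw : w ∈ FS S) (he : e ∉ S) : kill e w = w :=
  fixH (fun c hc => by
    have : c ≠ e := fun k => he (k ▸ hc)
    simp [kill, this]) hw

lemma R_of {e : ι} (hw : w ∈ FS S) (he : e ∉ S) (c : ι) :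
    Rw e w (of c) = if c = e then of e * w else of c := by rw [Rw_of, kill_w hw he]

lemma L_of {e : ι} (hw : w ∈ FS S) (he : e ∉ S) (c : ι) :
    Lw e w (of c) = if c = e then w⁻¹ * of e else of c := by rw [Lw_of, kill_w hw he]

lemma R_w {e : ι} (hw : w ∈ FS S) (he : e ∉ S) : Rw e w w = w :=
  fixA (fun c hc => by
    have : c ≠ e := fun k => he (k ▸ hc)
    simp [Rw_of, this]) hw

lemma L_w {e : ι} (hw : w ∈ FS S) (he : e ∉ S) : Lw e w w = w :=
  fixA (fun c hc => by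
    have : c ≠ e := fun k => he (k ▸ hc)
    simp [Lw_of, this]) hw

lemma ep_w {e : ι} (hw : w ∈ FS S) (he : e ∉ S) : ep e w = w :=
  fixA (fun c hc => by
    have : c ≠ e := fun k => he (k ▸ hc)
    simp [ep_of, this]) hw

lemma la_w {a c : ι} (h : c ≠ a) (hw : w ∈ FS S) (hc : c ∉ S) : la c a w = w :=
  fixA (fun x hx => by
    have : x ≠ c := fun k => hc (k ▸ hx)
    simp [la_of h, this]) hw

lemma RR {e f : ι} (hw : w ∈ FS S) (he : e ∉ S) (hf : f ∉ S) : Commute (Rw e w) (Rw f w) := by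
  by_cases h : e = f
  · subst h; exact Commute.refl _
  refine aut_ext fun c => ?_
  by_cases k : c = e <;> by_cases l : c = f <;>
    simp_all [R_of hw he, R_of hw hf, R_w hw he, R_w hw hf, Ne.symm h]

lemma LL {e f : ι} (hw : w ∈ FS S) (he : e ∉ S) (hf : f ∉ S) : Commute (Lw e w) (Lw f w) := by
  by_cases h : e = f
  · subst h; exact Commute.refl _
  refine aut_ext fun c => ?_
  by_cases k : c = e <;> by_cases l : c = f <;>
    simp_all [L_of hw he, L_of hw hf, L_w hw he, L_w hw hf, Ne.symm h]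

lemma RL {e f : ι} (hw : w ∈ FS S) (he : e ∉ S) (hf : f ∉ S) : Commute (Rw e w) (Lw f w) := by
  refine aut_ext fun c => ?_
  by_cases h : e = f
  · subst h
    by_cases k : c = e <;> simp [R_of hw he, L_of hw he, R_w hw he, L_w hw he, k, mul_assoc]
  by_cases k : c = e <;> by_cases l : c = f <;>
    simp_all [R_of hw he, L_of hw hf, R_w hw he, L_w hw hf, Ne.symm h]

lemma pmR {e : ι} (σ : Perm ι) (hσ : ∀ c ∈ S, σ c = c) (hw : w ∈ FS S) (he : e ∉ S)
    (he' : σ e ∉ S) : pm σ * Rw e w = Rw (σ e) w * pm σ := by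
  have hp : pm σ w = w := fixA (fun c hc => by rw [pm_of, hσ c hc]) hw
  refine aut_ext fun c => ?_
  by_cases k : c = e <;> simp [R_of hw he, R_of hw he', k, hp]

lemma pmL {e : ι} (σ : Perm ι) (hσ : ∀ c ∈ S, σ c = c) (hw : w ∈ FS S) (he : e ∉ S)
    (he' : σ e ∉ S) : pm σ * Lw e w = Lw (σ e) w * pm σ := by
  have hp : pm σ w = w := fixA (fun c hc => by rw [pm_of, hσ c hc]) hw
  refine aut_ext fun c => ?_
  by_cases k : c = e <;> simp [L_of hw he, L_of hw he', k, hp]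

lemma epR {e : ι} (hw : w ∈ FS S) (he : e ∉ S) : ep e * Rw e w = Lw e w * ep e := by
  refine aut_ext fun c => ?_
  by_cases k : c = e <;> simp [R_of hw he, L_of hw he, ep_of, ep_w hw he, k]

lemma epL {e : ι} (hw : w ∈ FS S) (he : e ∉ S) : ep e * Lw e w = Rw e w * ep e := by
  refine aut_ext fun c => ?_
  by_cases k : c = e <;> simp [R_of hw he, L_of hw he, ep_of, ep_w hw he, k]

lemma epR' {e f : ι} (h : f ≠ e) (hw : w ∈ FS S) (he : e ∉ S) (hf : f ∉ S) :
    ep e * Rw f w = Rw f w * ep e := by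
  refine aut_ext fun c => ?_
  by_cases k : c = e <;> by_cases l : c = f <;>
    simp_all [R_of hw hf, ep_of, ep_w hw he, Ne.symm h]

lemma epL' {e f : ι} (h : f ≠ e) (hw : w ∈ FS S) (he : e ∉ S) (hf : f ∉ S) :
    ep e * Lw f w = Lw f w * ep e := by
  refine aut_ext fun c => ?_
  by_cases k : c = e <;> by_cases l : c = f <;>
    simp_all [L_of hw hf, ep_of, ep_w hw he, Ne.symm h]

lemma laRa {a c : ι} (h : a ≠ c) (hw : w ∈ FS S) (ha : a ∉ S) (hc : c ∉ S) :
    la c a * Rw a w = Rw a w * Lw c w * la c a := by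
  refine aut_ext fun x => ?_
  by_cases k : x = a <;> by_cases l : x = c <;>
    simp_all [R_of hw ha, L_of hw hc, la_of h.symm, la_w h.symm hw hc, R_w hw ha, h.symm,
      mul_assoc]

lemma laR {a c e : ι} (h : a ≠ c) (h' : e ≠ a) (hw : w ∈ FS S) (hc : c ∉ S) (he : e ∉ S) :
    la c a * Rw e w = Rw e w * la c a := by
  refine aut_ext fun x => ?_
  by_cases m : e = c
  · subst m
    by_cases l : x = e <;>
      simp [R_of hw he, la_of h.symm, la_w h.symm hw he, l, h, mul_assoc]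
  by_cases k : x = e <;> by_cases l : x = c <;>
    simp_all [R_of hw he, la_of h.symm, la_w h.symm hw hc, h'.symm, Ne.symm m]

lemma laL {a c e : ι} (h : a ≠ c) (h' : e ≠ a) (m : e ≠ c) (hw : w ∈ FS S) (hc : c ∉ S)
    (he : e ∉ S) : la c a * Lw e w = Lw e w * la c a := by
  refine aut_ext fun x => ?_
  by_cases k : x = e <;> by_cases l : x = c <;>
    simp_all [L_of hw he, la_of h.symm, la_w h.symm hw hc, h'.symm, Ne.symm m]

end grp

section lin
variable {H : Type} [AddCommGroup H] [Module ℂ H]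

lemma gen_conj {u f g : End ℂ H} (h : u * f = g * u) {μ : ℂ} {v : H}
    (hv : v ∈ f.maxGenEigenspace μ) : u v ∈ g.maxGenEigenspace μ := by
  rw [End.mem_maxGenEigenspace] at hv ⊢
  obtain ⟨k, hk⟩ := hv
  have h1 : SemiconjBy u (f - μ • 1) (g - μ • 1) := by
    simp [SemiconjBy, mul_sub, sub_mul, h]
  refine ⟨k, ?_⟩
  have h2 := DFunLike.congr_fun (h1.pow_right k).eq v
  rw [End.mul_apply, End.mul_apply, hk, map_zero] at h2
  exact h2.symm

lemma gen_mul {f g : End ℂ H} (h : Commute f g) {x y : ℂ} {v : H}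
    (hf : v ∈ f.maxGenEigenspace x) (hg : v ∈ g.maxGenEigenspace y) :
    v ∈ (f * g).maxGenEigenspace (x * y) := by
  have h1 : v ∈ (g * (f - x • 1)).genEigenspace 0 ⊤ := by
    change v ∈ (g * (f - x • 1)).maxGenEigenspace 0
    rw [End.mem_maxGenEigenspace] at hf ⊢
    obtain ⟨k, hk⟩ := hf
    have hc : Commute g (f - x • 1) := h.symm.sub_right ((Commute.one_right g).smul_right x)
    exact ⟨k, by rw [zero_smul, sub_zero, hc.mul_pow, End.mul_apply, hk, map_zero]⟩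
  have h2 : v ∈ (x • g).genEigenspace (x * y) ⊤ := End.genEigenspace_le_smul g y x ⊤ hg
  have hc : Commute (g * (f - x • 1)) (x • g) :=
    ((Commute.refl g).mul_left (h.sub_left ((Commute.one_left g).smul_left x))).smul_right x
  have h3 := End.genEigenspace_inf_le_add _ _ _ _ _ _ hc ⟨h1, h2⟩
  have e : g * (f - x • 1) + x • g = f * g := by
    rw [mul_sub, h.symm.eq]; simp
  rw [e, zero_add, top_add] at h3
  exact h3

lemma gen_one (v : H) : v ∈ (1 : End ℂ H).maxGenEigenspace 1 := by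
  rw [End.mem_maxGenEigenspace]
  exact ⟨1, by simp⟩

lemma split {Θ X : Type} {E : Θ → Submodule ℂ H} {G : X → Submodule ℂ H} (hG : iSupIndep G)
    (ht : ⨆ θ, E θ = ⊤) (lam : Θ → X) (h : ∀ θ, E θ ≤ G (lam θ)) (x : X) :
    G x = ⨆ θ, ⨆ (_ : lam θ = x), E θ := by
  have h1 : (⨆ θ, ⨆ (_ : lam θ = x), E θ) ≤ G x := iSup₂_le fun θ k => k ▸ h θ
  have h2 : (⨆ θ, ⨆ (_ : ¬ lam θ = x), E θ) ≤ ⨆ y, ⨆ (_ : y ≠ x), G y :=
    iSup₂_le fun θ k => (h θ).trans (le_iSup₂_of_le (lam θ) k le_rfl)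
  have h3 : Disjoint (⨆ θ, ⨆ (_ : ¬ lam θ = x), E θ) (G x) := ((hG x).mono_right h2).symm
  rw [iSup_split E fun θ => lam θ = x] at ht
  have h4 := sup_inf_assoc_of_le (⨆ θ, ⨆ (_ : ¬ lam θ = x), E θ) h1
  rw [ht, top_inf_eq, h3.eq_bot, sup_bot_eq] at h4
  exact h4

variable [FiniteDimensional ℂ H]

lemma fr_le {u : End ℂ H} (hu : Function.Injective u) {P Q : Submodule ℂ H}
    (h : ∀ v ∈ P, u v ∈ Q) : finrank ℂ P ≤ finrank ℂ Q := by
  rw [(Submodule.equivMapOfInjective u hu P).finrank_eq]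
  exact Submodule.finrank_mono (by rintro _ ⟨v, hv, rfl⟩; exact h v hv)

lemma fr_sum {Θ : Type} {E : Θ → Submodule ℂ H} (hE : iSupIndep E) (s : Finset Θ) :
    finrank ℂ (⨆ θ ∈ s, E θ : Submodule ℂ H) = ∑ θ ∈ s, finrank ℂ (E θ) := by
  classical
  induction s using Finset.induction_on with
  | empty => simp
  | insert a s ha ih =>
    have hd : Disjoint (E a) (⨆ θ ∈ s, E θ) := hE.disjoint_biSup (y := (s : Set Θ)) ha
    have := Submodule.finrank_sup_add_finrank_inf_eq (E a) (⨆ θ ∈ s, E θ)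
    rw [hd.eq_bot, finrank_bot, add_zero, ih] at this
    rw [Finset.iSup_insert, sum_insert ha, this]

lemma fr_filter {Θ : Type} {E : Θ → Submodule ℂ H} (hE : iSupIndep E) {T : Finset Θ}
    (hT : ∀ θ, θ ∉ T → E θ = ⊥) (P Q : Θ → Prop) {_ : DecidablePred P} (h : ∀ θ, Q θ ↔ P θ) :
    finrank ℂ (⨆ θ, ⨆ (_ : Q θ), E θ : Submodule ℂ H) = ∑ θ ∈ T with P θ, finrank ℂ (E θ) := by
  rw [← fr_sum hE]
  refine congrArg (fun W : Submodule ℂ H => finrank ℂ W) ?_
  refine le_antisymm (iSup₂_le fun θ k => ?_) (iSup₂_le fun θ k => ?_)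
  · by_cases m : θ ∈ T
    · exact le_iSup₂_of_le θ (mem_filter.2 ⟨m, (h θ).1 k⟩) le_rfl
    · rw [hT θ m]; exact bot_le
  · exact le_iSup₂_of_le θ ((h θ).2 (mem_filter.1 k).2) le_rfl

lemma indep_of_comm {I : Type} (f : I → End ℂ H) (h : ∀ i j, Commute (f i) (f j)) :
    (iSupIndep fun x : I → ℂ => ⨅ i, (f i).maxGenEigenspace (x i)) ∧
      ⨆ x : I → ℂ, ⨅ i, (f i).maxGenEigenspace (x i) = ⊤ :=
  ⟨End.independent_iInf_maxGenEigenspace_of_forall_mapsTo f fun i j φ =>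
      End.mapsTo_maxGenEigenspace_of_comm (h j i) φ,
    End.iSup_iInf_maxGenEigenspace_eq_top_of_forall_mapsTo f
      (fun i j φ => End.mapsTo_maxGenEigenspace_of_comm (h j i) φ)
      fun i => End.iSup_maxGenEigenspace_eq_top (f i)⟩

end lin

section main
variable {ι H : Type} [DecidableEq ι] [AddCommGroup H] [Module ℂ H]

omit [DecidableEq ι] in
lemma r_inj (r : Rep ι H) (α : A ι) : Function.Injective (r α) := by
  have h : r α⁻¹ * r α = 1 := by rw [← _root_.map_mul, inv_mul_cancel, _root_.map_one]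
  exact Function.LeftInverse.injective (g := r α⁻¹) fun v => DFunLike.congr_fun h v

omit [DecidableEq ι] in
lemma r_conj (r : Rep ι H) {α β γ : A ι} (h : α * β = γ * α) : r α * r β = r γ * r α := by
  rw [← _root_.map_mul, h, _root_.map_mul]

omit [DecidableEq ι] in
lemma eig_ne (r : Rep ι H) (α : A ι) {x : ℂ} {v : H} (hv : v ≠ 0)
    (h : v ∈ (r α).maxGenEigenspace x) : x ≠ 0 := by
  rintro rfl
  rw [End.mem_maxGenEigenspace] at h
  obtain ⟨k, hk⟩ := h
  rw [zero_smul, sub_zero, ← map_pow] at hk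
  exact hv (r_inj r _ (by rw [hk, map_zero]))

lemma mem_GE {r : Rep ι H} {S : Finset ι} {w : FreeGroup ι} {θ : {e // e ∉ S} → ℂ × ℂ} {v : H} :
    v ∈ GE r S w θ ↔ ∀ e : {e // e ∉ S}, v ∈ (r (Rw e.1 w)).maxGenEigenspace (θ e).1 ∧
      v ∈ (r (Lw e.1 w)).maxGenEigenspace (θ e).2 := by
  simp only [GE, Submodule.mem_iInf, Submodule.mem_inf]

variable [FiniteDimensional ℂ H] (r : Rep ι H) {S : Finset ι} {w : FreeGroup ι}

lemma GE_dec (hw : w ∈ FS (S : Set ι)) : iSupIndep (GE r S w) ∧ ⨆ θ, GE r S w θ = ⊤ := by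
  obtain ⟨h1, h2⟩ := indep_of_comm (H := H)
    (fun i : {e // e ∉ S} × Bool => r (if i.2 then Lw i.1.1 w else Rw i.1.1 w)) (by
      rintro ⟨e, b⟩ ⟨f, c⟩
      refine Commute.map ?_ r
      cases b <;> cases c
      · exact RR hw e.2 f.2
      · exact RL hw e.2 f.2
      · exact (RL hw f.2 e.2).symm
      · exact LL hw e.2 f.2)
  obtain ⟨χ, hχ⟩ : ∃ χ : ({e // e ∉ S} → ℂ × ℂ) → ({e // e ∉ S} × Bool → ℂ),
      χ = fun θ i => if i.2 then (θ i.1).2 else (θ i.1).1 := ⟨_, rfl⟩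
  have hi : Function.Injective χ := fun θ θ' h => by
    rw [hχ] at h
    exact funext fun e => Prod.ext (congrFun h (e, false)) (congrFun h (e, true))
  have hs : Function.Surjective χ := fun x => ⟨fun e => (x (e, false), x (e, true)), by
    rw [hχ]
    funext ⟨e, b⟩
    cases b <;> rfl⟩
  obtain ⟨G, hG⟩ : ∃ G : ({e // e ∉ S} × Bool → ℂ) → Submodule ℂ H,
      G = fun x => ⨅ i : {e // e ∉ S} × Bool,
        (r (if i.2 then Lw i.1.1 w else Rw i.1.1 w)).maxGenEigenspace (x i) := ⟨_, rfl⟩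
  have e : GE r S w = G ∘ χ := by
    funext θ
    rw [Function.comp_apply, hG, hχ]
    refine Submodule.ext fun v => ?_
    rw [mem_GE, Submodule.mem_iInf]
    constructor
    · rintro h ⟨e, b⟩
      cases b
      · exact (h e).1
      · exact (h e).2
    · exact fun h e => ⟨h (e, false), h (e, true)⟩
  rw [← hG] at h1
  have h3 : ⨆ x, G x = ⊤ := by rw [hG]; exact h2
  rw [e]
  exact ⟨h1.comp hi, (hs.iSup_comp G).trans h3⟩

lemma GE_perm (hw : w ∈ FS (S : Set ι)) (σ : Perm {e // e ∉ S}) (θ : {e // e ∉ S} → ℂ × ℂ) :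
    finrank ℂ (GE r S w (θ ∘ σ)) ≤ finrank ℂ (GE r S w θ) := by
  have h0 : ∀ c ∈ (S : Set ι), Perm.ofSubtype σ c = c := fun c hc =>
    Perm.ofSubtype_apply_of_not_mem σ (not_not.2 hc)
  refine fr_le (r_inj r (pm (Perm.ofSubtype σ))) fun v hv => mem_GE.2 fun e => ?_
  obtain ⟨f, rfl⟩ := σ.surjective e
  have h1 : Perm.ofSubtype σ f.1 = (σ f).1 := Perm.ofSubtype_apply_coe σ f
  have h2 : Perm.ofSubtype σ f.1 ∉ (S : Set ι) := h1 ▸ (σ f).2
  have h3 := mem_GE.1 hv f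
  exact ⟨h1 ▸ gen_conj (r_conj r (pmR _ h0 hw f.2 h2)) h3.1,
    h1 ▸ gen_conj (r_conj r (pmL _ h0 hw f.2 h2)) h3.2⟩

lemma GE_flip (hw : w ∈ FS (S : Set ι)) (θ : {e // e ∉ S} → ℂ × ℂ) (e : {e // e ∉ S}) :
    finrank ℂ (GE r S w (Function.update θ e (θ e).swap)) ≤ finrank ℂ (GE r S w θ) := by
  refine fr_le (r_inj r (ep e.1)) fun v hv => mem_GE.2 fun f => ?_
  have h3 := mem_GE.1 hv f
  by_cases k : f = e
  · subst k
    rw [Function.update_self] at h3
    exact ⟨gen_conj (r_conj r (epL hw f.2)) h3.2, gen_conj (r_conj r (epR hw f.2)) h3.1⟩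
  · rw [Function.update_of_ne k] at h3
    have k' : f.1 ≠ e.1 := fun m => k (Subtype.ext m)
    exact ⟨gen_conj (r_conj r (epR' k' hw e.2 f.2)) h3.1,
      gen_conj (r_conj r (epL' k' hw e.2 f.2)) h3.2⟩

lemma GE_bal (hw : w ∈ FS (S : Set ι)) {T : Finset ({e // e ∉ S} → ℂ × ℂ)}
    (hT : ∀ θ, θ ∉ T → GE r S w θ = ⊥) (a c : {e // e ∉ S}) (hac : a ≠ c)
    (θ₀ : {e // e ∉ S} → ℂ × ℂ)
    {_ : DecidablePred fun θ : {e // e ∉ S} → ℂ × ℂ => (∀ e, e ≠ a → e ≠ c → θ e = θ₀ e) ∧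
      (θ c).1 = (θ₀ c).1 ∧ (θ a).1 = (θ₀ a).1}
    {_ : DecidablePred fun θ : {e // e ∉ S} → ℂ × ℂ => (∀ e, e ≠ a → e ≠ c → θ e = θ₀ e) ∧
      (θ c).1 = (θ₀ c).1 ∧ (θ a).1 * (θ c).2 = (θ₀ a).1} :
    ∑ θ ∈ T with ((∀ e, e ≠ a → e ≠ c → θ e = θ₀ e) ∧ (θ c).1 = (θ₀ c).1 ∧
      (θ a).1 = (θ₀ a).1), finrank ℂ (GE r S w θ) =
    ∑ θ ∈ T with ((∀ e, e ≠ a → e ≠ c → θ e = θ₀ e) ∧ (θ c).1 = (θ₀ c).1 ∧
      (θ a).1 * (θ c).2 = (θ₀ a).1), finrank ℂ (GE r S w θ) := by
  obtain ⟨hi, ht⟩ := GE_dec r hw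
  have hac' : a.1 ≠ c.1 := fun m => hac (Subtype.ext m)
  obtain ⟨L, hL⟩ : ∃ L : {e // e ∉ S} → A ι, L = fun e => if e = a ∨ e = c then 1 else Lw e.1 w :=
    ⟨_, rfl⟩
  obtain ⟨R, hR⟩ : ∃ R : {e // e ∉ S} → A ι,
      R = fun e => if e = a then Rw a.1 w * Lw c.1 w else Rw e.1 w := ⟨_, rfl⟩
  obtain ⟨y, hy⟩ : ∃ y : ({e // e ∉ S} → ℂ × ℂ) → {e // e ∉ S} → ℂ,
      y = fun θ e => if e = a ∨ e = c then 1 else (θ e).2 := ⟨_, rfl⟩
  obtain ⟨x, hx⟩ : ∃ x : ({e // e ∉ S} → ℂ × ℂ) → {e // e ∉ S} → ℂ,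
      x = fun θ e => if e = a then (θ a).1 * (θ c).2 else (θ e).1 := ⟨_, rfl⟩
  have cL : ∀ (α : A ι), (∀ f : {e // e ∉ S}, Commute α (Lw f.1 w)) → ∀ f, Commute α (L f) := by
    intro α h f
    rw [hL]
    dsimp only
    split_ifs
    · exact Commute.one_right _
    · exact h f
  have cR : ∀ (α : A ι), (∀ f : {e // e ∉ S}, Commute α (Lw f.1 w)) →
      (∀ f : {e // e ∉ S}, Commute α (Rw f.1 w)) → ∀ f, Commute α (R f) := by
    intro α h h' f
    rw [hR]
    dsimp only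
    split_ifs
    · exact (h' a).mul_right (h c)
    · exact h' f
  have LL' : ∀ e f, Commute (L e) (L f) := fun e f =>
    cL _ (fun g => (cL _ (fun g' => LL hw g.2 g'.2) e).symm) f
  have RL' : ∀ (e : {e // e ∉ S}) f, Commute (Rw e.1 w) (L f) := fun e f =>
    cL _ (fun g => RL hw e.2 g.2) f
  have LR' : ∀ e f, Commute (L e) (R f) := fun e f =>
    cR _ (fun g => (cL _ (fun g' => LL hw g.2 g'.2) e).symm) (fun g => (RL' g e).symm) f
  have RR' : ∀ e f, Commute (R e) (R f) := fun e f =>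
    cR _ (fun g => (cR _ (fun g' => LL hw g.2 g'.2) (fun g' => (RL hw g'.2 g.2).symm) e).symm)
      (fun g => (cR _ (fun g' => RL hw g.2 g'.2) (fun g' => RR hw g.2 g'.2) e).symm) f
  have i1 := (indep_of_comm (H := H)
    (fun i : {e // e ∉ S} × Bool => r (if i.2 then L i.1 else Rw i.1.1 w)) (by
      rintro ⟨e, b⟩ ⟨f, d⟩
      refine Commute.map ?_ r
      cases b <;> cases d
      · exact RR hw e.2 f.2
      · exact RL' e f
      · exact (RL' f e).symm
      · exact LL' e f)).1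
  have i2 := (indep_of_comm (H := H)
    (fun i : {e // e ∉ S} × Bool => r (if i.2 then L i.1 else R i.1)) (by
      rintro ⟨e, b⟩ ⟨f, d⟩
      refine Commute.map ?_ r
      cases b <;> cases d
      · exact RR' e f
      · exact (LR' f e).symm
      · exact LR' e f
      · exact LL' e f)).1
  have mL : ∀ θ, ∀ v ∈ GE r S w θ, ∀ e, v ∈ (r (L e)).maxGenEigenspace (y θ e) := by
    intro θ v hv e
    rw [hL, hy]
    dsimp only
    split_ifs
    · rw [_root_.map_one]; exact gen_one v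
    · exact (mem_GE.1 hv e).2
  have mR : ∀ θ, ∀ v ∈ GE r S w θ, ∀ e, v ∈ (r (R e)).maxGenEigenspace (x θ e) := by
    intro θ v hv e
    rw [hR, hx]
    dsimp only
    split_ifs
    · rw [_root_.map_mul]
      exact gen_mul ((RL hw a.2 c.2).map r) (mem_GE.1 hv a).1 (mem_GE.1 hv c).2
    · exact (mem_GE.1 hv e).1
  have s1 := split i1 ht (fun θ i => if i.2 then y θ i.1 else (θ i.1).1) (fun θ v hv => by
    rw [Submodule.mem_iInf]
    rintro ⟨e, b⟩
    cases b
    · exact (mem_GE.1 hv e).1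
    · exact mL θ v hv e) (fun i => if i.2 then y θ₀ i.1 else (θ₀ i.1).1)
  have s2 := split i2 ht (fun θ i => if i.2 then y θ i.1 else x θ i.1) (fun θ v hv => by
    rw [Submodule.mem_iInf]
    rintro ⟨e, b⟩
    cases b
    · exact mR θ v hv e
    · exact mL θ v hv e) (fun i => if i.2 then y θ₀ i.1 else (θ₀ i.1).1)
  have hyy : ∀ θ, (∀ e, y θ e = y θ₀ e) ↔ ∀ e, e ≠ a → e ≠ c → (θ e).2 = (θ₀ e).2 := by
    intro θ
    rw [hy]
    refine forall_congr' fun e => ?_
    by_cases k : e = a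
    · simp [k]
    by_cases l : e = c <;> simp [k, l]
  rw [← fr_filter hi hT _ (fun θ => (fun i : {e // e ∉ S} × Bool =>
      if i.2 then y θ i.1 else (θ i.1).1) = fun i => if i.2 then y θ₀ i.1 else (θ₀ i.1).1) ?_,
    ← fr_filter hi hT _ (fun θ => (fun i : {e // e ∉ S} × Bool =>
      if i.2 then y θ i.1 else x θ i.1) = fun i => if i.2 then y θ₀ i.1 else (θ₀ i.1).1) ?_,
    ← s1, ← s2]
  · have key : ∀ i : {e // e ∉ S} × Bool, la c.1 a.1 * (if i.2 then L i.1 else Rw i.1.1 w) =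
        (if i.2 then L i.1 else R i.1) * la c.1 a.1 := by
      rintro ⟨e, b⟩
      cases b
      · change la c.1 a.1 * Rw e.1 w = R e * la c.1 a.1
        rw [hR]
        dsimp only
        split_ifs with k
        · rw [k]; exact laRa hac' hw a.2 c.2
        · exact laR hac' (fun m => k (Subtype.ext m)) hw c.2 e.2
      · change la c.1 a.1 * L e = L e * la c.1 a.1
        rw [hL]
        dsimp only
        split_ifs with k
        · rw [mul_one, one_mul]
        · exact laL hac' (fun m => k (Or.inl (Subtype.ext m)))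
            (fun m => k (Or.inr (Subtype.ext m))) hw c.2 e.2
    refine le_antisymm (fr_le (r_inj r (la c.1 a.1)) fun v hv => ?_)
      (fr_le (r_inj r (la c.1 a.1)⁻¹) fun v hv => ?_)
    · rw [Submodule.mem_iInf] at hv ⊢
      exact fun i => gen_conj (r_conj r (key i)) (hv i)
    · rw [Submodule.mem_iInf] at hv ⊢
      refine fun i => gen_conj (r_conj r ?_) (hv i)
      rw [inv_mul_eq_iff_eq_mul, ← mul_assoc, key i, mul_inv_cancel_right]
  · intro θ
    rw [funext_iff, Prod.forall]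
    simp only [Bool.forall_bool, Bool.false_eq_true, if_false, if_true, forall_and, hyy]
    rw [hx]
    constructor
    · rintro ⟨h1, h2⟩
      refine ⟨fun e k l => Prod.ext ?_ (h2 e k l), ?_, ?_⟩
      · simpa [k] using h1 e
      · simpa [hac.symm] using h1 c
      · simpa using h1 a
    · rintro ⟨h1, h2, h3⟩
      refine ⟨fun e => ?_, fun e k l => by rw [h1 e k l]⟩
      by_cases k : e = a
      · simpa [k] using h3
      by_cases l : e = c
      · simpa [l, hac.symm] using h2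
      · simp [k, h1 e k l]
  · intro θ
    rw [funext_iff, Prod.forall]
    simp only [Bool.forall_bool, Bool.false_eq_true, if_false, if_true, forall_and, hyy]
    constructor
    · rintro ⟨h1, h2⟩
      exact ⟨fun e k l => Prod.ext (h1 e) (h2 e k l), h1 c, h1 a⟩
    · rintro ⟨h1, h2, h3⟩
      refine ⟨fun e => ?_, fun e k l => by rw [h1 e k l]⟩
      by_cases k : e = a
      · rw [k, h3]
      by_cases l : e = c
      · rw [l, h2]
      · rw [h1 e k l]

end main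

theorem schar : SChar := by
  intro ι H _ _ _ _ _ r S w hw
  obtain ⟨hi, ht⟩ := GE_dec r hw
  have hfin := Submodule.finite_ne_bot_of_iSupIndep hi
  have hT : ∀ θ, θ ∉ hfin.toFinset → GE r S w θ = ⊥ := fun θ h => by simpa using h
  refine ⟨hfin.toFinset, ⟨fun θ => ?_, fun θ h e => ?_, fun σ θ => ?_, fun θ e => ?_,
    fun a c hac θ₀ => GE_bal r hw hT a c hac θ₀⟩, ?_, ht, hi⟩
  · simp [Submodule.finrank_eq_zero]
  · have h' : GE r S w θ ≠ ⊥ := by simpa using h
    obtain ⟨v, hv, h0⟩ := Submodule.exists_mem_ne_zero_of_ne_bot h'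
    exact ⟨eig_ne r _ h0 (mem_GE.1 hv e).1, eig_ne r _ h0 (mem_GE.1 hv e).2⟩
  · refine le_antisymm (GE_perm r hw σ θ) ?_
    have := GE_perm r hw σ⁻¹ (θ ∘ σ)
    rwa [show (θ ∘ σ) ∘ ⇑σ⁻¹ = θ from funext fun e => by simp] at this
  · refine le_antisymm (GE_flip r hw θ e) ?_
    have := GE_flip r hw (Function.update θ e (θ e).swap) e
    rwa [Function.update_idem, Function.update_self, Prod.swap_swap, Function.update_eq_self]
      at this
  · rw [← fr_sum hi, ← finrank_top ℂ H, ← ht]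
    refine congrArg (fun W : Submodule ℂ H => finrank ℂ W) ?_
    refine le_antisymm (iSup₂_le fun θ _ => le_iSup _ θ) (iSup_le fun θ => ?_)
    by_cases m : θ ∈ hfin.toFinset
    · exact le_iSup₂_of_le θ m le_rfl
    · rw [hT θ m]; exact bot_le

theorem squad (h : SComb) : SQuad := by
  intro C
  obtain ⟨N₀, hN⟩ := h (12 * C)
  refine ⟨N₀ + 3, ?_⟩
  intro ι H _ _ _ _ _ r hn hd e S hS he w hw
  obtain ⟨T, hI, hs, ht, -⟩ := schar ι H r S w hw
  have hc : Fintype.card {e // e ∉ S} = Fintype.card ι - S.card := by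
    rw [Fintype.card_subtype_compl, Fintype.card_coe]
  have h1 : T.card ≤ finrank ℂ H := by
    rw [← hs, card_eq_sum_ones]
    exact sum_le_sum fun θ k => Nat.one_le_iff_ne_zero.2 ((hI.1 θ).1 k)
  obtain ⟨N, hN'⟩ : ∃ N, N = Fintype.card {e // e ∉ S} := ⟨_, rfl⟩
  have h2 : Fintype.card ι ≤ N + 2 := by omega
  have h3 : T.card ≤ 12 * C * N * 2 ^ N := by
    have a1 : Fintype.card ι ≤ 3 * N := by omega
    have a2 : 2 ^ Fintype.card ι ≤ 2 ^ (N + 2) := Nat.pow_le_pow_right (by norm_num) h2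
    calc T.card ≤ C * Fintype.card ι * 2 ^ Fintype.card ι := h1.trans hd
      _ ≤ C * (3 * N) * 2 ^ (N + 2) := Nat.mul_le_mul (Nat.mul_le_mul_left _ a1) a2
      _ = 12 * C * N * 2 ^ N := by ring
  have h4 := hN _ T _ (by omega) hI (hN' ▸ h3)
  have h5 : (⊤ : Submodule ℂ H) ≤ (r (Rw e w) ^ 2).maxGenEigenspace 1 := by
    rw [← ht]
    refine iSup_le fun θ v hv => ?_
    by_cases m : θ ∈ T
    · have k := (mem_GE.1 hv ⟨e, he⟩).1
      have := gen_mul (Commute.refl _) k k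
      rwa [← sq, ← sq, h4 θ m] at this
    · have k : GE r S w θ = ⊥ := Submodule.finrank_eq_zero.1 (not_not.1 fun k => m ((hI.1 θ).2 k))
      rw [k, Submodule.mem_bot] at hv
      rw [hv]
      exact zero_mem _
  refine End.isNilpotent_iff_of_finite.2 fun v => ?_
  have := (End.mem_maxGenEigenspace _ _ _).1 (h5 (Submodule.mem_top : v ∈ ⊤))
  rwa [one_smul] at this

end Pool.Agent.MP_3ce0a0_al.H30.XC
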